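import Pool.Agent.helper61.Y2.Spec

/-!
Row y2:TOI (MP_752b23_lc): from slaloms to the ideal.
-/

set_option autoImplicit false

namespace H61.Y2

open H61.Yorioka Cardinal

theorem TOI_empty (g : ℕ → ℕ) : Thin g (∅ : Set (List Bool)) := by
  intro k
  refine ⟨1, fun N hN => ?_⟩
  have h1 : cn (∅ : Set (List Bool)) (g N) = 0 := by
    unfold cn
    have : {t : List Bool | t ∈ (∅ : Set (List Bool)) ∧ t.length < g N} = ∅ := by
      ext t
      simp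
    rw [this, Set.ncard_empty]
  rw [h1]
  rcases Nat.eq_zero_or_pos k with h | h
  · rw [h, pow_zero]; exact hN
  · rw [zero_pow h.ne']; exact Nat.zero_le N

theorem TOI (hY0A : Y0A_stmt) (hY0B : Y0B_stmt) (hY0C : Y0C_stmt) (hY0D : Y0D_stmt)
    (hY0E : Y0E_stmt) (hSQT : SQT_stmt) : TOI_stmt := by
  intro g J k hg hS
  have h1 : ∀ A : {A : Set (ℕ → Bool) // A ∈ yoriokaIdeal g}, ∃ B : ℕ → Finset (List Bool),
      Sl g B ∧ A.1 ⊆ LS (UN B) := by
    intro A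
    obtain ⟨T, hT, hAT⟩ := hY0C g hg A.1 A.2
    obtain ⟨B, hB, hTB⟩ := hY0D g hg T hT
    exact ⟨B, hB, hAT.trans hTB⟩
  choose a ha1 ha2 using h1
  have h2 := hSQT {A : Set (ℕ → Bool) // A ∈ yoriokaIdeal g}
    {A : Set (ℕ → Bool) // A ∈ yoriokaIdeal g} (ℕ → Finset (List Bool))
    (ℕ → Finset (List Bool)) J (IRel (yoriokaIdeal g)) (rS g) k 0 a Set.univ {A | Sl g A} hS
    (fun x _ => ha1 x) ?_
  · exact h2
  · intro S
    by_cases hSl : Sl g S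
    · refine ⟨⟨LS (UN S), hY0B g hg _ (hY0A g hg S hSl)⟩, ?_⟩
      rintro x ⟨-, hx⟩
      exact (ha2 x).trans (hY0E _ _ hx.2)
    · refine ⟨⟨LS ∅, hY0B g hg _ (TOI_empty g)⟩, ?_⟩
      rintro x ⟨-, hx⟩
      exact absurd hx.1 hSl

end H61.Y2
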